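import Mathlib
import Pool.Agent.H11.PC.Defs
import Pool.Agent.H11.PB.Defs

/-!
# Chapters 3, 4, 5 of the project H11/PB (helper78): definitions

`Fac b θ χ r k` is the factor of the character `χ` modulo `N` at the prime power `r^k`; `PLG L G` describes the
limits at the cusps with denominator `L`; `VD` is the result of chapter 3a-3c; `cu`, `Du` are the functions `c`, `D` on the
units modulo `N c`.
-/

set_option autoImplicit false

namespace Pool.Agent.H78.PB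

open Complex Filter Topology Pool.Agent.H11.PC Pool.Agent.H11.PB

/-- the factor of the character `χ` at the prime power `r^k` -/
noncomputable def Fac (b : ℕ → ℂ) (θ : ℝ) {N : ℕ} (χ : DirichletCharacter ℂ N) (r k : ℕ) : ℂ :=
  (χ (r : ZMod N))⁻¹ ^ k * Lam b r k (χ (r : ZMod N) * (r : ℂ) ^ (-(1 - θ * I : ℂ)))

/-- the limits at the cusps `x/L`, `x` prime to `L`, are `∑ G(χ) χ(x)`, `χ` modulo `N` -/
def PLG (b : ℕ → ℂ) (θ : ℝ) (U : Filter ℝ) (om : ℝ → ℝ) (N L : ℕ) [NeZero N]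
    (G : DirichletCharacter ℂ N → ℂ) : Prop :=
  ∀ x : ℕ, Nat.Coprime x L → Tendsto
    (fun α : ℝ => (om α : ℂ) * Es b ((x : ℝ) / (L : ℝ)) (1 - θ * I + α)) U
    (𝓝 (∑ χ : DirichletCharacter ℂ N, G χ * χ (x : ZMod N)))

/-- the result of chapter 3: the values at `m = ∏ r^k`, `r` distinct primes not dividing `P` -/
structure VD (b : ℕ → ℂ) (θ : ℝ) (N c P : ℕ) [NeZero N] (cf : DirichletCharacter ℂ N → ℂ)
    (D : ZMod c → ℂ) : Prop where
  pd : PD b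
  P0 : P ≠ 0
  dvd : N * c ∣ P
  sum : ∑ χ : DirichletCharacter ℂ N, cf χ = 1
  D1 : D 1 = 1
  val : ∀ l : List (ℕ × ℕ), (∀ x ∈ l, x.1.Prime ∧ ¬ x.1 ∣ P ∧ 1 ≤ x.2) → (l.map Prod.fst).Nodup →
    ∑ χ : DirichletCharacter ℂ N, cf χ * (l.map (fun x => Fac b θ χ x.1 x.2)).prod =
      (((l.map (fun x => x.1 ^ x.2)).prod : ℕ) : ℂ) ^ (-1 + 2 * θ * I : ℂ) *
        D (((l.map (fun x => x.1 ^ x.2)).prod : ℕ) : ZMod c)

/-- the function `c(x) = ∑ cf(χ) conj χ(x)` on the units modulo `N c` -/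
noncomputable def cu {N : ℕ} [NeZero N] (c : ℕ) (cf : DirichletCharacter ℂ N → ℂ)
    (x : (ZMod (N * c))ˣ) : ℂ :=
  ∑ χ : DirichletCharacter ℂ N, cf χ * (χ (ZMod.castHom (dvd_mul_right N c) (ZMod N) (x : ZMod (N * c))))⁻¹

/-- the function `D` on the units modulo `N c` -/
noncomputable def Du (N : ℕ) {c : ℕ} (D : ZMod c → ℂ) (x : (ZMod (N * c))ˣ) : ℂ :=
  D (ZMod.castHom (dvd_mul_left c N) (ZMod c) (x : ZMod (N * c)))

/-- `B(r) = b(r) r^(iθ)` -/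
noncomputable def Bv (b : ℕ → ℂ) (θ : ℝ) (r : ℕ) : ℂ := b r * (r : ℂ) ^ (θ * I : ℂ)

end Pool.Agent.H78.PB
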