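import Mathlib
import Pool.Agent.H78.PB.Defs

/-!
# CHR: Fourier analysis on the units modulo `M`

* `four`: `a χ = φ(M)⁻¹ ∑_x (χ x)⁻¹ f x`; `∑_χ (χ x)⁻¹ χ y = φ(M) [x = y]`
  (`DirichletCharacter.sum_char_inv_mul_char_eq`).
* `four_unique`: the difference `g χ = a χ - a' χ` has `∑_χ g χ χ(x) = 0` for all units `x`, so `g = 0` (compare the private
  lemma `vec_orth` of `H11/PC/VEC.lean`: `∑_x (χ'⁻¹ χ)(x) = φ(M) [χ = χ']`: `MulChar.sum_one_eq_card_units`,
  `MulChar.sum_eq_zero_of_ne_one`; or linear independence of characters `linearIndependent_monoidHom`).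
* `mul_char`: `f` is a homomorphism `(ZMod M)ˣ →* ℂˣ`, `MulChar.ofUnitHom`.
* `cu_four`: with `cl χ = (DirichletCharacter.changeLevel (dvd_mul_right N c) χ)⁻¹` (injective:
  `DirichletCharacter.changeLevel_injective`, `inv_injective`), `cu c cf x = ∑_χ cf χ (cl χ) x`
  (`changeLevel_eq_cast_of_dvd`, `MulChar.inv_apply_eq_inv'`), so if `cu c cf x = ∑_f a f * f x` for all units `x`, then
  `four_unique` gives `a f = ∑_{χ, cl χ = f} cf χ`: `a (cl χ) = cf χ` and `a f = 0` for `f` not of this form.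
* `cf_one`: `f` from `mul_char` (`cu 1 = ∑ cf = 1`), `a = Pi.single f 1` in `cu_four`: as `a f = 1 ≠ 0`, `f = cl χ1`, `cf χ1 = 1`,
  and `cf χ = a (cl χ) = 0` for `χ ≠ χ1`.
* `cf_two`: `a = c1 [f = f1] + c2 [f = f2]` in `cu_four`.
-/

set_option autoImplicit false

namespace Pool.Agent.H78.PB

open Complex

theorem four (M : ℕ) [NeZero M] (f : (ZMod M)ˣ → ℂ) :
    ∃ a : DirichletCharacter ℂ M → ℂ, ∀ x : (ZMod M)ˣ,
      f x = ∑ χ : DirichletCharacter ℂ M, a χ * χ (x : ZMod M) := by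
  classical
  have hφ : (M.totient : ℂ) ≠ 0 := by
    have : 0 < M.totient := Nat.totient_pos.2 (Nat.pos_of_ne_zero (NeZero.ne M))
    exact_mod_cast this.ne'
  refine ⟨fun χ => (M.totient : ℂ)⁻¹ * ∑ y : (ZMod M)ˣ, f y * χ ((y : ZMod M)⁻¹), fun x => ?_⟩
  have h1 : ∑ χ : DirichletCharacter ℂ M,
      ((M.totient : ℂ)⁻¹ * ∑ y : (ZMod M)ˣ, f y * χ ((y : ZMod M)⁻¹)) * χ (x : ZMod M) =
      (M.totient : ℂ)⁻¹ * ∑ y : (ZMod M)ˣ, f y *
        ∑ χ : DirichletCharacter ℂ M, χ ((y : ZMod M)⁻¹) * χ (x : ZMod M) := by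
    simp only [Finset.mul_sum, Finset.sum_mul]
    rw [Finset.sum_comm]
    refine Finset.sum_congr rfl fun y _ => Finset.sum_congr rfl fun χ _ => ?_
    ring
  rw [h1]
  have h2 : ∀ y : (ZMod M)ˣ, f y *
      ∑ χ : DirichletCharacter ℂ M, χ ((y : ZMod M)⁻¹) * χ (x : ZMod M) =
      if y = x then f x * (M.totient : ℂ) else 0 := by
    intro y
    rw [DirichletCharacter.sum_char_inv_mul_char_eq ℂ y.isUnit]
    by_cases hyx : y = x
    · rw [if_pos (by rw [hyx]), if_pos hyx, hyx]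
    · rw [if_neg (fun h => hyx (Units.ext h)), if_neg hyx, mul_zero]
  rw [Finset.sum_congr rfl fun y _ => h2 y, Finset.sum_ite_eq' Finset.univ x,
    if_pos (Finset.mem_univ x)]
  field_simp

private theorem char_orth (M : ℕ) [NeZero M] (χ ψ : DirichletCharacter ℂ M) :
    ∑ x : ZMod M, (ψ⁻¹) x * χ x = if χ = ψ then (Fintype.card (ZMod M)ˣ : ℂ) else 0 := by
  classical
  have h1 : ∀ x : ZMod M, (ψ⁻¹) x * χ x = (ψ⁻¹ * χ) x := fun x => (MulChar.mul_apply _ _ _).symm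
  rw [Finset.sum_congr rfl fun x _ => h1 x]
  split_ifs with h
  · rw [h, inv_mul_cancel, MulChar.sum_one_eq_card_units]
  · refine MulChar.sum_eq_zero_of_ne_one fun h2 => h ?_
    rw [inv_mul_eq_one] at h2
    exact h2.symm

theorem four_unique (M : ℕ) [NeZero M] (a a' : DirichletCharacter ℂ M → ℂ)
    (h : ∀ x : (ZMod M)ˣ, ∑ χ : DirichletCharacter ℂ M, a χ * χ (x : ZMod M) =
      ∑ χ : DirichletCharacter ℂ M, a' χ * χ (x : ZMod M)) : a = a' := by
  classical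
  funext ψ
  have h0 : ∀ x : ZMod M, ∑ χ : DirichletCharacter ℂ M, (a χ - a' χ) * χ x = 0 := by
    intro x
    by_cases hx : IsUnit x
    · obtain ⟨u, hu⟩ := hx
      have h1 := h u
      rw [hu] at h1
      simp only [sub_mul, Finset.sum_sub_distrib]
      rw [h1, sub_self]
    · refine Finset.sum_eq_zero fun χ _ => ?_
      rw [MulChar.map_nonunit χ hx, mul_zero]
  have h1 : ∑ x : ZMod M, (ψ⁻¹) x * ∑ χ : DirichletCharacter ℂ M, (a χ - a' χ) * χ x = 0 :=
    Finset.sum_eq_zero fun x _ => by rw [h0 x, mul_zero]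
  have h2 : ∑ x : ZMod M, (ψ⁻¹) x * ∑ χ : DirichletCharacter ℂ M, (a χ - a' χ) * χ x =
      ∑ χ : DirichletCharacter ℂ M, (a χ - a' χ) * ∑ x : ZMod M, (ψ⁻¹) x * χ x := by
    simp only [Finset.mul_sum]
    rw [Finset.sum_comm]
    refine Finset.sum_congr rfl fun χ _ => Finset.sum_congr rfl fun x _ => ?_
    ring
  rw [h2] at h1
  have h3 : ∀ χ : DirichletCharacter ℂ M, (a χ - a' χ) * ∑ x : ZMod M, (ψ⁻¹) x * χ x =
      if χ = ψ then (a ψ - a' ψ) * (Fintype.card (ZMod M)ˣ : ℂ) else 0 := by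
    intro χ
    rw [char_orth]
    by_cases hχ : χ = ψ
    · rw [if_pos hχ, if_pos hχ, hχ]
    · rw [if_neg hχ, if_neg hχ, mul_zero]
  rw [Finset.sum_congr rfl fun χ _ => h3 χ, Finset.sum_ite_eq' Finset.univ ψ,
    if_pos (Finset.mem_univ ψ)] at h1
  have h4 : (Fintype.card (ZMod M)ˣ : ℂ) ≠ 0 := by
    have : 0 < Fintype.card (ZMod M)ˣ := Fintype.card_pos
    exact_mod_cast this.ne'
  have h5 := (mul_eq_zero.1 h1).resolve_right h4
  exact sub_eq_zero.1 h5

theorem mul_char (M : ℕ) [NeZero M] (f : (ZMod M)ˣ → ℂ) (h1 : f 1 = 1)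
    (hm : ∀ x y, f (x * y) = f x * f y) :
    ∃ χ : DirichletCharacter ℂ M, ∀ x : (ZMod M)ˣ, χ (x : ZMod M) = f x := by
  let F : (ZMod M)ˣ →* ℂˣ :=
    { toFun := fun x => ⟨f x, f x⁻¹, by rw [← hm, mul_inv_cancel, h1],
        by rw [← hm, inv_mul_cancel, h1]⟩
      map_one' := Units.ext h1
      map_mul' := fun x y => Units.ext (hm x y) }
  exact ⟨MulChar.ofUnitHom F, fun x => MulChar.ofUnitHom_coe F x⟩

/-- the inverse of `χ`, as a character modulo `N c` -/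
noncomputable def clv {N : ℕ} (c : ℕ) (χ : DirichletCharacter ℂ N) : DirichletCharacter ℂ (N * c) :=
  (DirichletCharacter.changeLevel (dvd_mul_right N c) χ)⁻¹

theorem clv_apply {N : ℕ} (c : ℕ) [NeZero (N * c)] (χ : DirichletCharacter ℂ N)
    (x : (ZMod (N * c))ˣ) : clv c χ (x : ZMod (N * c)) =
      (χ (ZMod.castHom (dvd_mul_right N c) (ZMod N) (x : ZMod (N * c))))⁻¹ := by
  unfold clv
  rw [MulChar.inv_apply_eq_inv', DirichletCharacter.changeLevel_eq_cast_of_dvd, ZMod.castHom_apply]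

theorem clv_inj {N : ℕ} (c : ℕ) [NeZero (N * c)] :
    Function.Injective (clv c : DirichletCharacter ℂ N → DirichletCharacter ℂ (N * c)) := by
  intro χ ψ h
  exact DirichletCharacter.changeLevel_injective (dvd_mul_right N c) (inv_injective h)

theorem cu_four {N : ℕ} [NeZero N] (c : ℕ) [NeZero (N * c)] (cf : DirichletCharacter ℂ N → ℂ)
    (a : DirichletCharacter ℂ (N * c) → ℂ)
    (h : ∀ x : (ZMod (N * c))ˣ, cu c cf x = ∑ f : DirichletCharacter ℂ (N * c), a f * f (x : ZMod (N * c))) :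
    (∀ χ, a (clv c χ) = cf χ) ∧ ∀ f, (∀ χ, clv c χ ≠ f) → a f = 0 := by
  classical
  obtain ⟨a', ha'⟩ : ∃ a' : DirichletCharacter ℂ (N * c) → ℂ,
      a' = fun f => ∑ χ : DirichletCharacter ℂ N, if clv c χ = f then cf χ else 0 := ⟨_, rfl⟩
  have h1 : a = a' := by
    refine four_unique (N * c) a a' fun x => ?_
    rw [← h x, ha']
    unfold cu
    simp only [Finset.sum_mul]
    rw [Finset.sum_comm]
    refine Finset.sum_congr rfl fun χ _ => ?_
    rw [← clv_apply]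
    have h2 : ∀ f : DirichletCharacter ℂ (N * c), (if clv c χ = f then cf χ else 0) *
        f (x : ZMod (N * c)) = if clv c χ = f then cf χ * (clv c χ) (x : ZMod (N * c)) else 0 := by
      intro f
      by_cases hf : clv c χ = f
      · rw [if_pos hf, if_pos hf, hf]
      · rw [if_neg hf, if_neg hf, zero_mul]
    rw [Finset.sum_congr rfl fun f _ => h2 f, Finset.sum_ite_eq Finset.univ (clv c χ),
      if_pos (Finset.mem_univ _)]
  refine ⟨fun χ => ?_, fun f hf => ?_⟩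
  · rw [h1, ha']
    have h2 : ∀ ψ : DirichletCharacter ℂ N, (if clv c ψ = clv c χ then cf ψ else 0) =
        if ψ = χ then cf χ else 0 := by
      intro ψ
      by_cases hψ : ψ = χ
      · rw [if_pos (by rw [hψ]), if_pos hψ, hψ]
      · rw [if_neg (fun h => hψ (clv_inj c h)), if_neg hψ]
    show ∑ ψ : DirichletCharacter ℂ N, (if clv c ψ = clv c χ then cf ψ else 0) = cf χ
    rw [Finset.sum_congr rfl fun ψ _ => h2 ψ, Finset.sum_ite_eq' Finset.univ χ,
      if_pos (Finset.mem_univ _)]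
  · rw [h1, ha']
    exact Finset.sum_eq_zero fun χ _ => if_neg (hf χ)

theorem cf_one {N : ℕ} [NeZero N] (c : ℕ) [NeZero (N * c)] (cf : DirichletCharacter ℂ N → ℂ)
    (h1 : ∑ χ : DirichletCharacter ℂ N, cf χ = 1)
    (hm : ∀ x y : (ZMod (N * c))ˣ, cu c cf (x * y) = cu c cf x * cu c cf y) :
    ∃ χ1 : DirichletCharacter ℂ N, cf χ1 = 1 ∧ ∀ χ, χ ≠ χ1 → cf χ = 0 := by
  classical
  have hone : cu c cf 1 = 1 := by
    unfold cu
    rw [← h1]
    refine Finset.sum_congr rfl fun χ _ => ?_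
    rw [Units.val_one, map_one, map_one, inv_one, mul_one]
  obtain ⟨f0, hf0⟩ := mul_char (N * c) (cu c cf) hone hm
  obtain ⟨h3, h4⟩ := cu_four c cf (fun f => if f = f0 then 1 else 0) (fun x => by
    have h2 : ∀ f : DirichletCharacter ℂ (N * c), (if f = f0 then (1 : ℂ) else 0) *
        f (x : ZMod (N * c)) = if f = f0 then f0 (x : ZMod (N * c)) else 0 := by
      intro f
      by_cases hf : f = f0
      · rw [if_pos hf, if_pos hf, hf, one_mul]
      · rw [if_neg hf, if_neg hf, zero_mul]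
    rw [Finset.sum_congr rfl fun f _ => h2 f, Finset.sum_ite_eq' Finset.univ f0,
      if_pos (Finset.mem_univ _), hf0 x])
  by_cases hex : ∃ χ, clv c χ = f0
  · obtain ⟨χ1, hχ1⟩ := hex
    refine ⟨χ1, ?_, fun χ hχ => ?_⟩
    · rw [← h3 χ1]
      exact if_pos hχ1
    · rw [← h3 χ]
      refine if_neg fun h => hχ (clv_inj c ?_)
      rw [h, hχ1]
  · push Not at hex
    have h5 := h4 f0 hex
    rw [if_pos rfl] at h5
    exact absurd h5 one_ne_zero

theorem cf_two {N : ℕ} [NeZero N] (c : ℕ) [NeZero (N * c)] (cf : DirichletCharacter ℂ N → ℂ)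
    (f1 f2 : DirichletCharacter ℂ (N * c)) (c1 c2 : ℂ) (hf : f1 ≠ f2) (h1 : c1 ≠ 0) (h2 : c2 ≠ 0)
    (h : ∀ x : (ZMod (N * c))ˣ,
      cu c cf x = c1 * f1 (x : ZMod (N * c)) + c2 * f2 (x : ZMod (N * c))) :
    ∃ χ1 χ2 : DirichletCharacter ℂ N, χ1 ≠ χ2 ∧ clv c χ1 = f1 ∧ clv c χ2 = f2 ∧ cf χ1 = c1 ∧
      cf χ2 = c2 ∧ ∀ χ, χ ≠ χ1 → χ ≠ χ2 → cf χ = 0 := by
  classical
  obtain ⟨a, ha⟩ : ∃ a : DirichletCharacter ℂ (N * c) → ℂ,
      a = fun f => (if f = f1 then c1 else 0) + (if f = f2 then c2 else 0) := ⟨_, rfl⟩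
  obtain ⟨h3, h4⟩ := cu_four c cf a (fun x => by
    have h5 : ∀ f : DirichletCharacter ℂ (N * c), a f * f (x : ZMod (N * c)) =
        (if f = f1 then c1 * f1 (x : ZMod (N * c)) else 0) +
          (if f = f2 then c2 * f2 (x : ZMod (N * c)) else 0) := by
      intro f
      rw [ha]
      simp only [add_mul, ite_mul, zero_mul]
      congr 1
      · by_cases hf1 : f = f1
        · rw [if_pos hf1, if_pos hf1, hf1]
        · rw [if_neg hf1, if_neg hf1]
      · by_cases hf1 : f = f2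
        · rw [if_pos hf1, if_pos hf1, hf1]
        · rw [if_neg hf1, if_neg hf1]
    rw [Finset.sum_congr rfl fun f _ => h5 f, Finset.sum_add_distrib,
      Finset.sum_ite_eq' Finset.univ f1, Finset.sum_ite_eq' Finset.univ f2,
      if_pos (Finset.mem_univ _), if_pos (Finset.mem_univ _), h x])
  have ha1 : a f1 = c1 := by
    rw [ha]
    show (if f1 = f1 then c1 else 0) + (if f1 = f2 then c2 else 0) = c1
    rw [if_pos rfl, if_neg hf, add_zero]
  have ha2 : a f2 = c2 := by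
    rw [ha]
    show (if f2 = f1 then c1 else 0) + (if f2 = f2 then c2 else 0) = c2
    rw [if_pos rfl, if_neg hf.symm, zero_add]
  have ha3 : ∀ f, f ≠ f1 → f ≠ f2 → a f = 0 := by
    intro f hf1 hf2
    rw [ha]
    show (if f = f1 then c1 else 0) + (if f = f2 then c2 else 0) = 0
    rw [if_neg hf1, if_neg hf2, add_zero]
  have hex1 : ∃ χ, clv c χ = f1 := by
    by_contra hcon
    push Not at hcon
    exact h1 (ha1 ▸ h4 f1 hcon)
  have hex2 : ∃ χ, clv c χ = f2 := by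
    by_contra hcon
    push Not at hcon
    exact h2 (ha2 ▸ h4 f2 hcon)
  obtain ⟨χ1, hχ1⟩ := hex1
  obtain ⟨χ2, hχ2⟩ := hex2
  refine ⟨χ1, χ2, ?_, hχ1, hχ2, ?_, ?_, fun χ hχ hχ' => ?_⟩
  · intro he
    apply hf
    rw [← hχ1, ← hχ2, he]
  · rw [← h3 χ1, hχ1, ha1]
  · rw [← h3 χ2, hχ2, ha2]
  · rw [← h3 χ]
    refine ha3 _ (fun h6 => hχ (clv_inj c ?_)) (fun h6 => hχ' (clv_inj c ?_))
    · rw [h6, hχ1]
    · rw [h6, hχ2]

end Pool.Agent.H78.PB
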