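import Mathlib
import Pool.Agent.H78.PB.CHR

/-!
# ALG: the functional equations for `c` and `D`

Let `c = ∑ cc f * f`, `D = ∑ dd f * f` (`four`).  Comparing the coefficients of `f(x) g(y)` in `h2` (apply `four_unique` twice:
for fixed `y` in the variable `x`, then in `y`; `f(x y) = f(x) f(y)`):
(1) `dd f [f = g] - dd f dd g = cc f [f = g] - cc f cc g`.
So `cc f cc g = dd f dd g` for `f ≠ g` and `(cc f - dd f)(1 - cc f - dd f) = 0`.
*Case `cc = dd`*: `c = D`, and `h3` gives, comparing the coefficients of `f(x) g(y) h(z)` (`four_unique` three times):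
`cc f [f=g=h] = -2 cc f cc g cc h + cc f cc g [g=h] + cc g cc f [f=h] + cc h cc f [f=g]` (the terms: `c(x)c(yz)` gives
`cc f cc g [g = h]`, `c(y)c(xz)` gives `cc g cc f [f = h]`, `c(z)c(xy)` gives `cc h cc f [f = g]`).
So for `f, g, h` distinct `cc f cc g cc h = 0`, and for `f = g ≠ h`: `0 = -2 (cc f)^2 cc h + cc h cc f`.
`∑ cc = c 1 = 1`, so the support is not empty.  If the support is `{f}`: `cc f = 1`, `c = D = f` is multiplicative (first
alternative).  If it contains `f1 ≠ f2`: it is `{f1, f2}` and `cc f1 = cc f2 = 1/2` (second alternative, `c1 = c2 = 1/2`).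
*Case `cc f0 ≠ dd f0`*: `cc f0 + dd f0 = 1`.  Let `S = {f : cc f ≠ 0 or dd f ≠ 0}`, `f0 ∈ S`.  For `g ∈ S`, `g ≠ f0`:
`cc g ≠ dd g` (otherwise `cc g = dd g ≠ 0` and `cc f0 cc g = dd f0 dd g` give `cc f0 = dd f0`), so `cc g + dd g = 1`.  So
`cc f + dd f = 1` for all `f ∈ S` and `∑ (cc f + dd f) = c 1 + D 1 = 2` gives `|S| = 2`, `S = {f1, f2}`; `∑ cc = 1`:
`c1 + c2 = 1` with `c_i = cc f_i`, `dd f1 = 1 - c1 = c2`, `dd f2 = c1`.  If `c1 = 0`: `c = f2`, `D = f1`; if `c2 = 0`: `c = f1`,
`D = f2`: both multiplicative; otherwise the second alternative.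
-/

set_option autoImplicit false

namespace Pool.Agent.H78.PB

open Complex

section Sums

variable {M : ℕ} [NeZero M] {c : (ZMod M)ˣ → ℂ} {cc : DirichletCharacter ℂ M → ℂ}

private theorem s0 (hcc : ∀ x, c x = ∑ f : DirichletCharacter ℂ M, cc f * f (x : ZMod M)) (t : ℂ)
    (x : (ZMod M)ˣ) :
    ∑ f : DirichletCharacter ℂ M, (cc f * t) * f (x : ZMod M) = c x * t := by
  rw [hcc x, Finset.sum_mul]
  exact Finset.sum_congr rfl fun f _ => by ring

private theorem s2 (hcc : ∀ x, c x = ∑ f : DirichletCharacter ℂ M, cc f * f (x : ZMod M))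
    (x y : (ZMod M)ˣ) :
    ∑ f : DirichletCharacter ℂ M, (cc f * f (y : ZMod M)) * f (x : ZMod M) = c (x * y) := by
  rw [hcc (x * y)]
  refine Finset.sum_congr rfl fun f _ => ?_
  rw [Units.val_mul, map_mul]
  ring

private theorem s3 (hcc : ∀ x, c x = ∑ f : DirichletCharacter ℂ M, cc f * f (x : ZMod M))
    (x y z : (ZMod M)ˣ) :
    ∑ f : DirichletCharacter ℂ M, (cc f * (f (y : ZMod M) * f (z : ZMod M))) * f (x : ZMod M) =
      c (x * y * z) := by
  rw [hcc (x * y * z)]
  refine Finset.sum_congr rfl fun f _ => ?_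
  rw [Units.val_mul, Units.val_mul, map_mul, map_mul]
  ring

open Classical in
private theorem s4 (f : DirichletCharacter ℂ M) (t : ℂ) (y : (ZMod M)ˣ) :
    ∑ g : DirichletCharacter ℂ M, (t * (if g = f then 1 else 0)) * g (y : ZMod M) =
      t * f (y : ZMod M) := by
  have h : ∀ g : DirichletCharacter ℂ M, (t * (if g = f then 1 else 0)) * g (y : ZMod M) =
      if g = f then t * f (y : ZMod M) else 0 := by
    intro g
    by_cases hg : g = f
    · rw [if_pos hg, if_pos hg, hg, mul_one]
    · rw [if_neg hg, if_neg hg, mul_zero, zero_mul]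
  rw [Finset.sum_congr rfl fun g _ => h g, Finset.sum_ite_eq' Finset.univ f,
    if_pos (Finset.mem_univ _)]

open Classical in
/-- comparison of the coefficients in the second order relation -/
private theorem coef2 {D : (ZMod M)ˣ → ℂ} {dd : DirichletCharacter ℂ M → ℂ}
    (hcc : ∀ x, c x = ∑ f : DirichletCharacter ℂ M, cc f * f (x : ZMod M))
    (hdd : ∀ x, D x = ∑ f : DirichletCharacter ℂ M, dd f * f (x : ZMod M))
    (h2 : ∀ x y, D (x * y) - D x * D y = c (x * y) - c x * c y) (f g : DirichletCharacter ℂ M) :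
    dd f * (if g = f then 1 else 0) - dd f * dd g =
      cc f * (if g = f then 1 else 0) - cc f * cc g := by
  have e1 : ∀ (y : (ZMod M)ˣ) (f : DirichletCharacter ℂ M),
      dd f * f (y : ZMod M) - dd f * D y = cc f * f (y : ZMod M) - cc f * c y := by
    intro y f
    refine congrFun (four_unique M (fun f => dd f * f (y : ZMod M) - dd f * D y)
      (fun f => cc f * f (y : ZMod M) - cc f * c y) fun x => ?_) f
    simp only [sub_mul, Finset.sum_sub_distrib]
    rw [s2 hdd, s2 hcc, s0 hdd, s0 hcc]
    exact h2 x y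
  refine congrFun (four_unique M (fun g => dd f * (if g = f then 1 else 0) - dd f * dd g)
    (fun g => cc f * (if g = f then 1 else 0) - cc f * cc g) fun y => ?_) g
  simp only [sub_mul, Finset.sum_sub_distrib]
  rw [s4, s4]
  have h3 : ∑ g : DirichletCharacter ℂ M, dd f * dd g * g (y : ZMod M) = dd f * D y := by
    rw [hdd y, Finset.mul_sum]
    exact Finset.sum_congr rfl fun g _ => by ring
  have h4 : ∑ g : DirichletCharacter ℂ M, cc f * cc g * g (y : ZMod M) = cc f * c y := by
    rw [hcc y, Finset.mul_sum]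
    exact Finset.sum_congr rfl fun g _ => by ring
  rw [h3, h4]
  exact e1 y f

open Classical in
/-- comparison of the coefficients in the third order relation -/
private theorem coef3
    (hcc : ∀ x, c x = ∑ f : DirichletCharacter ℂ M, cc f * f (x : ZMod M))
    (h3 : ∀ x y z, c (x * y * z) = -2 * c x * c y * c z + c x * c (y * z) +
      c y * c (x * z) + c z * c (x * y)) (f : DirichletCharacter ℂ M) (hf : cc f ≠ 0)
    (g h : DirichletCharacter ℂ M) :
    (if g = f then 1 else 0) * (if h = f then (1 : ℂ) else 0) =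
      -2 * cc g * cc h + cc g * (if h = g then 1 else 0) + cc g * (if h = f then 1 else 0) +
        cc h * (if g = f then 1 else 0) := by
  have e3 : ∀ (y z : (ZMod M)ˣ) (f : DirichletCharacter ℂ M),
      cc f * (f (y : ZMod M) * f (z : ZMod M)) =
        cc f * (-2 * (c y * c z) + c (y * z)) + (cc f * f (z : ZMod M)) * c y +
          (cc f * f (y : ZMod M)) * c z := by
    intro y z f
    refine congrFun (four_unique M (fun f => cc f * (f (y : ZMod M) * f (z : ZMod M)))
      (fun f => cc f * (-2 * (c y * c z) + c (y * z)) + (cc f * f (z : ZMod M)) * c y +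
          (cc f * f (y : ZMod M)) * c z) fun x => ?_) f
    have h5 : ∀ f : DirichletCharacter ℂ M, (cc f * (-2 * (c y * c z) + c (y * z)) +
        (cc f * f (z : ZMod M)) * c y + (cc f * f (y : ZMod M)) * c z) * f (x : ZMod M) =
        (cc f * (-2 * (c y * c z) + c (y * z))) * f (x : ZMod M) +
          ((cc f * f (z : ZMod M)) * f (x : ZMod M)) * c y +
            ((cc f * f (y : ZMod M)) * f (x : ZMod M)) * c z := fun f => by ring
    rw [s3 hcc, Finset.sum_congr rfl fun f _ => h5 f, Finset.sum_add_distrib,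
      Finset.sum_add_distrib, ← Finset.sum_mul, ← Finset.sum_mul, s0 hcc, s2 hcc, s2 hcc, h3 x y z]
    ring
  have e4 : ∀ y z : (ZMod M)ˣ, f (y : ZMod M) * f (z : ZMod M) =
      -2 * (c y * c z) + c (y * z) + f (z : ZMod M) * c y + f (y : ZMod M) * c z := by
    intro y z
    have h5 := e3 y z f
    have h6 : cc f * (f (y : ZMod M) * f (z : ZMod M)) = cc f *
        (-2 * (c y * c z) + c (y * z) + f (z : ZMod M) * c y + f (y : ZMod M) * c z) := by
      rw [h5]
      ring
    exact mul_left_cancel₀ hf h6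
  have e5 : ∀ (z : (ZMod M)ˣ) (g : DirichletCharacter ℂ M),
      f (z : ZMod M) * (if g = f then 1 else 0) =
        cc g * (-2 * c z + f (z : ZMod M)) + cc g * g (z : ZMod M) +
          c z * (if g = f then 1 else 0) := by
    intro z g
    refine congrFun (four_unique M (fun g => f (z : ZMod M) * (if g = f then 1 else 0))
      (fun g => cc g * (-2 * c z + f (z : ZMod M)) + cc g * g (z : ZMod M) +
          c z * (if g = f then 1 else 0)) fun y => ?_) g
    have h5 : ∀ g : DirichletCharacter ℂ M, (cc g * (-2 * c z + f (z : ZMod M)) +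
        cc g * g (z : ZMod M) + c z * (if g = f then 1 else 0)) * g (y : ZMod M) =
        (cc g * (-2 * c z + f (z : ZMod M))) * g (y : ZMod M) +
          (cc g * g (z : ZMod M)) * g (y : ZMod M) +
            (c z * (if g = f then 1 else 0)) * g (y : ZMod M) := fun g => by ring
    rw [s4, Finset.sum_congr rfl fun g _ => h5 g, Finset.sum_add_distrib,
      Finset.sum_add_distrib, s0 hcc, s2 hcc, s4]
    have h6 := e4 y z
    linear_combination h6
  have e6 := congrFun (four_unique M
    (fun h => (if g = f then (1 : ℂ) else 0) * (if h = f then (1 : ℂ) else 0))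
    (fun h => (cc h * (-2 * cc g)) + cc g * (if h = g then 1 else 0) +
      cc g * (if h = f then 1 else 0) + cc h * (if g = f then 1 else 0)) (fun z => ?_)) h
  · rw [e6]
    ring
  · have h5 : ∀ h : DirichletCharacter ℂ M, ((cc h * (-2 * cc g)) +
        cc g * (if h = g then 1 else 0) + cc g * (if h = f then 1 else 0) +
        cc h * (if g = f then 1 else 0)) * h (z : ZMod M) =
        (cc h * (-2 * cc g)) * h (z : ZMod M) + (cc g * (if h = g then 1 else 0)) * h (z : ZMod M) +
          (cc g * (if h = f then 1 else 0)) * h (z : ZMod M) +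
            (cc h * (if g = f then 1 else 0)) * h (z : ZMod M) := fun h => by ring
    rw [s4, Finset.sum_congr rfl fun h _ => h5 h, Finset.sum_add_distrib,
      Finset.sum_add_distrib, Finset.sum_add_distrib, s0 hcc, s4, s4, s0 hcc]
    have h6 := e5 z g
    linear_combination h6

end Sums

theorem alg {M : ℕ} [NeZero M] (c D : (ZMod M)ˣ → ℂ) (hc1 : c 1 = 1) (hD1 : D 1 = 1)
    (h2 : ∀ x y, D (x * y) - D x * D y = c (x * y) - c x * c y)
    (h3 : (∀ x, c x = D x) → ∀ x y z, c (x * y * z) = -2 * c x * c y * c z + c x * c (y * z) +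
      c y * c (x * z) + c z * c (x * y)) :
    ((∀ x y, c (x * y) = c x * c y) ∧ ∀ x y, D (x * y) = D x * D y) ∨
      ∃ (f1 f2 : DirichletCharacter ℂ M) (c1 c2 : ℂ), f1 ≠ f2 ∧ c1 ≠ 0 ∧ c2 ≠ 0 ∧ c1 + c2 = 1 ∧
        (∀ x, c x = c1 * f1 (x : ZMod M) + c2 * f2 (x : ZMod M)) ∧
        ∀ x, D x = c2 * f1 (x : ZMod M) + c1 * f2 (x : ZMod M) := by
  classical
  obtain ⟨cc, hcc⟩ := four M c
  obtain ⟨dd, hdd⟩ := four M D
  have hmul : ∀ (f : DirichletCharacter ℂ M) (x y : (ZMod M)ˣ),
      f ((x * y : (ZMod M)ˣ) : ZMod M) = f (x : ZMod M) * f (y : ZMod M) := fun f x y => by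
    rw [Units.val_mul, map_mul]
  have hsc : ∑ f : DirichletCharacter ℂ M, cc f = 1 := by
    rw [← hc1, hcc 1]
    exact Finset.sum_congr rfl fun f _ => by rw [Units.val_one, map_one, mul_one]
  have hsd : ∑ f : DirichletCharacter ℂ M, dd f = 1 := by
    rw [← hD1, hdd 1]
    exact Finset.sum_congr rfl fun f _ => by rw [Units.val_one, map_one, mul_one]
  have hco := coef2 hcc hdd h2
  -- a sum with support in two points
  have two : ∀ (a : DirichletCharacter ℂ M → ℂ) (A : (ZMod M)ˣ → ℂ),
      (∀ x, A x = ∑ f : DirichletCharacter ℂ M, a f * f (x : ZMod M)) →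
      ∀ f1 f2 : DirichletCharacter ℂ M, f1 ≠ f2 → (∀ f, f ≠ f1 → f ≠ f2 → a f = 0) →
      (∀ x, A x = a f1 * f1 (x : ZMod M) + a f2 * f2 (x : ZMod M)) := by
    intro a A hA f1 f2 hne h0 x
    rw [hA x, ← Finset.sum_subset (Finset.subset_univ {f1, f2}) (fun f _ hf => ?_),
      Finset.sum_pair hne]
    rw [Finset.mem_insert, Finset.mem_singleton, not_or] at hf
    rw [h0 f hf.1 hf.2, zero_mul]
  have one : ∀ (a : DirichletCharacter ℂ M → ℂ) (A : (ZMod M)ˣ → ℂ),
      (∀ x, A x = ∑ f : DirichletCharacter ℂ M, a f * f (x : ZMod M)) →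
      ∀ f1 : DirichletCharacter ℂ M, (∀ f, f ≠ f1 → a f = 0) →
      (∀ x, A x = a f1 * f1 (x : ZMod M)) := by
    intro a A hA f1 h0 x
    rw [hA x, Finset.sum_eq_single f1 (fun f _ hf => by rw [h0 f hf, zero_mul])
      (fun h => absurd (Finset.mem_univ _) h)]
  by_cases hcase : ∀ f, cc f = dd f
  · have hcD : ∀ x, c x = D x := by
      intro x
      rw [hcc x, hdd x]
      exact Finset.sum_congr rfl fun f _ => by rw [hcase f]
    have hco3 := coef3 hcc (h3 hcD)
    obtain ⟨f, hf⟩ : ∃ f, cc f ≠ 0 := by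
      by_contra hcon
      push Not at hcon
      rw [Finset.sum_eq_zero fun f _ => hcon f] at hsc
      exact zero_ne_one hsc
    have h5 : ∀ h, h ≠ f → cc h * (1 - 2 * cc f) = 0 := by
      intro h hh
      have h6 := hco3 f hf f h
      rw [if_pos rfl, if_neg hh] at h6
      linear_combination -h6
    have h6 : (cc f - 1) * (2 * cc f - 1) = 0 := by
      have h7 := hco3 f hf f f
      rw [if_pos rfl] at h7
      linear_combination h7
    rcases mul_eq_zero.1 h6 with h7 | h7
    · have h8 : cc f = 1 := by linear_combination h7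
      have h9 := one cc c hcc f (fun h hh => by
        have h10 := h5 h hh
        rw [h8] at h10
        linear_combination -h10)
      left
      have h10 : ∀ x y, c (x * y) = c x * c y := by
        intro x y
        rw [h9 (x * y), h9 x, h9 y, h8, hmul]
        ring
      refine ⟨h10, fun x y => ?_⟩
      rw [← hcD, ← hcD, ← hcD]
      exact h10 x y
    · have h8 : cc f = 1 / 2 := by linear_combination h7 / 2
      obtain ⟨g, hgf, hg⟩ : ∃ g, g ≠ f ∧ cc g ≠ 0 := by
        by_contra hcon
        push Not at hcon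
        have h9 : ∑ h : DirichletCharacter ℂ M, cc h = cc f :=
          Finset.sum_eq_single f (fun h _ hh => hcon h hh) (fun h => absurd (Finset.mem_univ _) h)
        rw [h9, h8] at hsc
        norm_num at hsc
      have h9 : cc g = 1 / 2 := by
        have h10 := hco3 f hf g g
        rw [if_neg hgf, if_pos rfl] at h10
        have h11 : cc g * (1 - 2 * cc g) = 0 := by linear_combination -h10
        rcases mul_eq_zero.1 h11 with h12 | h12
        · exact absurd h12 hg
        · linear_combination -h12 / 2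
      have h10 : ∀ h, h ≠ f → h ≠ g → cc h = 0 := by
        intro h hhf hhg
        have h11 := hco3 f hf g h
        rw [if_neg hgf, if_neg hhf, if_neg hhg] at h11
        have h12 : cc g * cc h = 0 := by linear_combination h11 / 2
        exact (mul_eq_zero.1 h12).resolve_left hg
      have h11 := two cc c hcc f g hgf.symm h10
      right
      refine ⟨f, g, 1 / 2, 1 / 2, hgf.symm, by norm_num, by norm_num, by norm_num, fun x => ?_,
        fun x => ?_⟩
      · rw [h11 x, h8, h9]
      · rw [← hcD, h11 x, h8, h9]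
  · push Not at hcase
    obtain ⟨f0, hf0⟩ := hcase
    have hself : ∀ f, (cc f - dd f) * (1 - cc f - dd f) = 0 := by
      intro f
      have h5 := hco f f
      rw [if_pos rfl] at h5
      linear_combination -h5
    have hoff : ∀ f g, g ≠ f → cc f * cc g = dd f * dd g := by
      intro f g hgf
      have h5 := hco f g
      rw [if_neg hgf] at h5
      linear_combination h5
    have hsum1 : ∀ f, cc f ≠ dd f → cc f + dd f = 1 := by
      intro f hf
      have h5 := (mul_eq_zero.1 (hself f)).resolve_left (sub_ne_zero.2 hf)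
      linear_combination -h5
    have hS : ∀ f, (cc f ≠ 0 ∨ dd f ≠ 0) → cc f + dd f = 1 := by
      intro f hf
      by_cases hff : f = f0
      · rw [hff]
        exact hsum1 f0 hf0
      · refine hsum1 f fun heq => ?_
        have h5 := hoff f0 f hff
        have h6 : dd f ≠ 0 := by
          rcases hf with h7 | h7
          · rw [← heq]
            exact h7
          · exact h7
        rw [heq] at h5
        exact hf0 (mul_right_cancel₀ h6 h5)
    obtain ⟨S, hSdef⟩ : ∃ S : Finset (DirichletCharacter ℂ M),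
        S = Finset.univ.filter (fun f => cc f ≠ 0 ∨ dd f ≠ 0) := ⟨_, rfl⟩
    have hmem : ∀ f, f ∈ S ↔ (cc f ≠ 0 ∨ dd f ≠ 0) := by
      intro f
      rw [hSdef, Finset.mem_filter]
      simp
    have hcard : (S.card : ℂ) = 2 := by
      have h5 : ∑ f ∈ S, (cc f + dd f) = 2 := by
        rw [Finset.sum_subset (Finset.subset_univ S) (fun f _ hf => ?_), Finset.sum_add_distrib,
          hsc, hsd]
        · norm_num
        · rw [hmem, not_or, not_not, not_not] at hf
          rw [hf.1, hf.2, add_zero]
      rw [Finset.sum_congr rfl fun f hf => hS f ((hmem f).1 hf), Finset.sum_const,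
        nsmul_eq_mul, mul_one] at h5
      exact h5
    have hcard2 : S.card = 2 := by exact_mod_cast hcard
    obtain ⟨f1, f2, hne, hS12⟩ := Finset.card_eq_two.1 hcard2
    have h1m : f1 ∈ S := by rw [hS12]; simp
    have h2m : f2 ∈ S := by rw [hS12]; simp
    have hout : ∀ f, f ≠ f1 → f ≠ f2 → cc f = 0 ∧ dd f = 0 := by
      intro f hf1 hf2
      have h5 : f ∉ S := by
        rw [hS12, Finset.mem_insert, Finset.mem_singleton, not_or]
        exact ⟨hf1, hf2⟩
      rw [hmem, not_or, not_not, not_not] at h5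
      exact h5
    have hc12 := two cc c hcc f1 f2 hne (fun f h5 h6 => (hout f h5 h6).1)
    have hd12 := two dd D hdd f1 f2 hne (fun f h5 h6 => (hout f h5 h6).2)
    have hs1 : cc f1 + dd f1 = 1 := hS f1 ((hmem f1).1 h1m)
    have hs2 : cc f2 + dd f2 = 1 := hS f2 ((hmem f2).1 h2m)
    have hs3 : cc f1 + cc f2 = 1 := by
      have h5 := hc12 1
      rw [hc1, Units.val_one, map_one, map_one] at h5
      linear_combination -h5
    have hd1 : dd f1 = cc f2 := by linear_combination hs1 - hs3
    have hd2 : dd f2 = cc f1 := by linear_combination hs2 - hs3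
    rw [hd1, hd2] at hd12
    by_cases hz1 : cc f1 = 0
    · left
      have hz2 : cc f2 = 1 := by rw [hz1, zero_add] at hs3; exact hs3
      refine ⟨fun x y => ?_, fun x y => ?_⟩
      · rw [hc12 (x * y), hc12 x, hc12 y, hz1, hz2, hmul f2]
        ring
      · rw [hd12 (x * y), hd12 x, hd12 y, hz1, hz2, hmul f1]
        ring
    · by_cases hz2 : cc f2 = 0
      · left
        have hz1' : cc f1 = 1 := by rw [hz2, add_zero] at hs3; exact hs3
        refine ⟨fun x y => ?_, fun x y => ?_⟩
        · rw [hc12 (x * y), hc12 x, hc12 y, hz1', hz2, hmul f1]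
          ring
        · rw [hd12 (x * y), hd12 x, hd12 y, hz1', hz2, hmul f2]
          ring
      · right
        exact ⟨f1, f2, cc f1, cc f2, hne, hz1, hz2, hs3, hc12, hd12⟩

end Pool.Agent.H78.PB
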