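import Mathlib
import Pool.Agent.H11.PC.Defs
import Pool.Agent.H11.PC.SUMM
import Pool.Agent.H11.PC.DIR

/-!
# AVG: averaging over the primes in a class

Let `ι n = if (n : ZMod M) = x then 1 else 0` and, for `α > 0`, `A(α) = PS ι (1 + α)`, `T(α) = PS ι (1 - 2θI + α)`.
`ι(p) = φ(M)⁻¹ ∑_χ χ(x)⁻¹ χ(p)` (`DirichletCharacter.sum_char_inv_mul_char_eq`), so
`PS ι s = φ(M)⁻¹ ∑_χ χ(x)⁻¹ PS χ s` for `Re s > 1` (`PS` is linear: `prime_summable_one`, `Summable.tsum_finsetSum`).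
`dir_bdd χ (-2θ) (Or.inr ..)`: `‖T(α)‖ ≤ K` for `0 < α ≤ 1`.  `dir_bdd χ 0 (Or.inl ..)` for `χ ≠ 1` and `dir_one`:
`‖A(α) + φ(M)⁻¹ log α‖ ≤ K`, so `A(α) → ∞` in norm as `α → 0+`; `A(α)` is a sum of non-negative reals:
`A(α) = ∑_{p = x} p^(-1-α) = ‖A(α)‖`.
`X T(α) - Y A(α) = ∑_p ι(p) p^(-1-α) (p^(2θI) X - Y)` (`p^(-(1-2θI+α)) = p^(-1-α) p^(2θI)`), and the norm of the sum is at
most `(‖X‖ + ‖Y‖) (P0 + 1) + C ∑_p p^(-3/2) + E A(α)` (the primes `p ≤ P0` contribute at most `(‖X‖+‖Y‖)` each; if there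
is a prime `r > P0` in the class then `0 ≤ C r^(-1/2) + E`, letting `r → ∞` (Dirichlet: `Nat.forall_exists_prime_gt_and_eq_mod`)
`E ≥ 0`).  So `‖Y‖ A(α) ≤ E A(α) + K'` for all `0 < α ≤ 1`, and `A(α) → ∞` gives `‖Y‖ ≤ E`.
-/

set_option autoImplicit false

namespace Pool.Agent.H78.PB

open Complex Filter Topology Pool.Agent.H11.PC

/-- the indicator function of a class -/
private noncomputable def io {M : ℕ} (x : (ZMod M)ˣ) (n : ℕ) : ℝ :=
  if (n : ZMod M) = (x : ZMod M) then 1 else 0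

private theorem io_nonneg {M : ℕ} (x : (ZMod M)ˣ) (n : ℕ) : 0 ≤ io x n := by
  unfold io
  split_ifs <;> norm_num

private theorem io_le {M : ℕ} (x : (ZMod M)ˣ) (n : ℕ) : io x n ≤ 1 := by
  unfold io
  split_ifs <;> norm_num

private theorem io_norm {M : ℕ} (x : (ZMod M)ˣ) (n : ℕ) : ‖((io x n : ℝ) : ℂ)‖ ≤ 1 := by
  rw [Complex.norm_real, Real.norm_eq_abs, abs_of_nonneg (io_nonneg x n)]
  exact io_le x n

private theorem ps_io {M : ℕ} [NeZero M] (x : (ZMod M)ˣ) (s : ℂ) (hs : 1 < s.re) :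
    PS (fun n => ((io x n : ℝ) : ℂ)) s = (M.totient : ℂ)⁻¹ *
      ∑ χ : DirichletCharacter ℂ M, χ ((x : ZMod M)⁻¹) * PS (fun n => χ (n : ZMod M)) s := by
  classical
  have hφ : (M.totient : ℂ) ≠ 0 := by
    have : 0 < M.totient := Nat.totient_pos.2 (Nat.pos_of_ne_zero (NeZero.ne M))
    exact_mod_cast this.ne'
  have h1 : ∀ n : ℕ, ((io x n : ℝ) : ℂ) = (M.totient : ℂ)⁻¹ *
      ∑ χ : DirichletCharacter ℂ M, χ ((x : ZMod M)⁻¹) * χ (n : ZMod M) := by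
    intro n
    rw [DirichletCharacter.sum_char_inv_mul_char_eq ℂ x.isUnit]
    unfold io
    by_cases hn : (n : ZMod M) = (x : ZMod M)
    · rw [if_pos hn, if_pos hn.symm, inv_mul_cancel₀ hφ]
      simp
    · rw [if_neg hn, if_neg (fun h => hn h.symm), mul_zero]
      simp
  have hsum : ∀ χ : DirichletCharacter ℂ M,
      Summable (fun p : Nat.Primes => χ ((p : ℕ) : ZMod M) * ((p : ℕ) : ℂ) ^ (-s)) := fun χ =>
    (prime_summable_one (fun n => χ (n : ZMod M)) (fun n => χ.norm_le_one _) s hs).of_norm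
  unfold PS
  have h2 : ∀ p : Nat.Primes, ((io x (p : ℕ) : ℝ) : ℂ) * ((p : ℕ) : ℂ) ^ (-s) =
      (M.totient : ℂ)⁻¹ * ∑ χ : DirichletCharacter ℂ M, χ ((x : ZMod M)⁻¹) *
        (χ ((p : ℕ) : ZMod M) * ((p : ℕ) : ℂ) ^ (-s)) := by
    intro p
    rw [h1, mul_assoc, Finset.sum_mul]
    congr 1
    exact Finset.sum_congr rfl fun χ _ => by ring
  rw [tsum_congr h2, tsum_mul_left, Summable.tsum_finsetSum (fun χ _ => (hsum χ).mul_left _)]
  congr 1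
  exact Finset.sum_congr rfl fun χ _ => tsum_mul_left

private theorem cast_rpow' (p : ℕ) (α : ℝ) :
    ((p : ℕ) : ℂ) ^ (-(1 + ((α : ℝ) : ℂ))) = (((p : ℝ) ^ (-(1 + α)) : ℝ) : ℂ) := by
  rw [Complex.ofReal_cpow (Nat.cast_nonneg _)]
  push_cast
  rfl

private theorem norm_tw (p : ℕ) (hp : 0 < p) (θ : ℝ) : ‖(p : ℂ) ^ (2 * θ * I : ℂ)‖ = 1 := by
  rw [norm_natCast_cpow_of_pos hp]
  simp

private theorem bd_T {M : ℕ} [NeZero M] (θ : ℝ) (hθ : θ ≠ 0) (x : (ZMod M)ˣ) :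
    ∃ K : ℝ, 0 ≤ K ∧ ∀ α : ℝ, 0 < α → α ≤ 1 →
      ‖PS (fun n => ((io x n : ℝ) : ℂ)) (1 - 2 * θ * I + α)‖ ≤ K := by
  classical
  have h1 : ∀ χ : DirichletCharacter ℂ M, ∃ C : ℝ, ∀ α : ℝ, 0 < α → α ≤ 1 →
      ‖PS (fun n => χ (n : ZMod M)) (1 - 2 * θ * I + α)‖ ≤ C := by
    intro χ
    obtain ⟨C, hC⟩ := dir_bdd χ (-2 * θ) (Or.inr (by
      intro h
      apply hθ
      linarith))
    refine ⟨C, fun α hα hα1 => ?_⟩
    have h2 := hC α hα hα1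
    have h3 : (1 + ((-2 * θ : ℝ) : ℂ) * I + (α : ℂ)) = 1 - 2 * θ * I + α := by
      push_cast
      ring
    rw [h3] at h2
    exact h2
  choose C hC using h1
  refine ⟨‖(M.totient : ℂ)⁻¹‖ * ∑ χ : DirichletCharacter ℂ M, |C χ|, by positivity,
    fun α hα hα1 => ?_⟩
  rw [ps_io x _ (by simp [hα]), norm_mul]
  refine mul_le_mul_of_nonneg_left ?_ (norm_nonneg _)
  refine (norm_sum_le _ _).trans (Finset.sum_le_sum fun χ _ => ?_)
  rw [norm_mul]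
  calc ‖χ ((x : ZMod M)⁻¹)‖ * ‖PS (fun n => χ (n : ZMod M)) (1 - 2 * θ * I + α)‖
      ≤ 1 * |C χ| := mul_le_mul (χ.norm_le_one _) ((hC χ α hα hα1).trans (le_abs_self _))
        (norm_nonneg _) zero_le_one
    _ = |C χ| := one_mul _

private theorem bd_A {M : ℕ} [NeZero M] (x : (ZMod M)ˣ) :
    ∃ K : ℝ, 0 ≤ K ∧ ∀ α : ℝ, 0 < α → α ≤ 1 →
      ‖PS (fun n => ((io x n : ℝ) : ℂ)) (1 + α) + (M.totient : ℂ)⁻¹ * (Real.log α : ℂ)‖ ≤ K := by
  classical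
  have h1 : ∀ χ : DirichletCharacter ℂ M, ∃ C : ℝ, ∀ α : ℝ, 0 < α → α ≤ 1 →
      ‖PS (fun n => χ (n : ZMod M)) (1 + α) + (if χ = 1 then (Real.log α : ℂ) else 0)‖ ≤ C := by
    intro χ
    by_cases hχ : χ = 1
    · obtain ⟨C, hC⟩ := dir_one (L := M)
      refine ⟨C, fun α hα hα1 => ?_⟩
      rw [if_pos hχ, hχ]
      exact hC α hα hα1
    · obtain ⟨C, hC⟩ := dir_bdd χ 0 (Or.inl hχ)
      refine ⟨C, fun α hα hα1 => ?_⟩
      rw [if_neg hχ, add_zero]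
      have h2 := hC α hα hα1
      have h3 : (1 + ((0 : ℝ) : ℂ) * I + (α : ℂ)) = 1 + α := by simp
      rw [h3] at h2
      exact h2
  choose C hC using h1
  refine ⟨‖(M.totient : ℂ)⁻¹‖ * ∑ χ : DirichletCharacter ℂ M, |C χ|, by positivity,
    fun α hα hα1 => ?_⟩
  have h4 : (Real.log α : ℂ) = ∑ χ : DirichletCharacter ℂ M, χ ((x : ZMod M)⁻¹) *
      (if χ = 1 then (Real.log α : ℂ) else 0) := by
    have h5 : ∀ χ : DirichletCharacter ℂ M, χ ((x : ZMod M)⁻¹) *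
        (if χ = 1 then (Real.log α : ℂ) else 0) = if χ = 1 then (Real.log α : ℂ) else 0 := by
      intro χ
      by_cases hχ : χ = 1
      · rw [if_pos hχ, hχ, ZMod.inv_coe_unit, MulChar.one_apply (x⁻¹).isUnit, one_mul]
      · rw [if_neg hχ, mul_zero]
    rw [Finset.sum_congr rfl fun χ _ => h5 χ, Finset.sum_ite_eq' Finset.univ 1,
      if_pos (Finset.mem_univ _)]
  rw [ps_io x _ (by simp [hα]), ← mul_add, norm_mul]
  refine mul_le_mul_of_nonneg_left ?_ (norm_nonneg _)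
  rw [h4, ← Finset.sum_add_distrib]
  refine (norm_sum_le _ _).trans (Finset.sum_le_sum fun χ _ => ?_)
  rw [← mul_add, norm_mul]
  calc _ ≤ 1 * |C χ| := mul_le_mul (χ.norm_le_one _) ((hC χ α hα hα1).trans (le_abs_self _))
        (norm_nonneg _) zero_le_one
    _ = |C χ| := one_mul _

theorem avg {M : ℕ} [NeZero M] (θ : ℝ) (hθ : θ ≠ 0) (x : (ZMod M)ˣ) (P0 : ℕ) (X Y : ℂ) (C E : ℝ)
    (hC : 0 ≤ C) (h : ∀ r : ℕ, r.Prime → P0 < r → (r : ZMod M) = (x : ZMod M) →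
      ‖(r : ℂ) ^ (2 * θ * I : ℂ) * X - Y‖ ≤ C * (r : ℝ) ^ (-(1 / 2) : ℝ) + E) : ‖Y‖ ≤ E := by
  classical
  have hφ : (0 : ℝ) < M.totient := by
    have : 0 < M.totient := Nat.totient_pos.2 (Nat.pos_of_ne_zero (NeZero.ne M))
    exact_mod_cast this
  -- E is not negative
  have hE : 0 ≤ E := by
    by_contra hE0
    push Not at hE0
    have h1 : Tendsto (fun n : ℕ => C * ((n : ℕ) : ℝ) ^ (-(1 / 2) : ℝ)) atTop (𝓝 0) := by
      have h2 : Tendsto (fun n : ℕ => ((n : ℕ) : ℝ) ^ (-(1 / 2) : ℝ)) atTop (𝓝 0) :=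
        (tendsto_rpow_neg_atTop (by norm_num : (0 : ℝ) < 1 / 2)).comp tendsto_natCast_atTop_atTop
      have h3 := h2.const_mul C
      rwa [mul_zero] at h3
    obtain ⟨n0, hn0⟩ := eventually_atTop.1 (h1.eventually_lt_const (by linarith : 0 < -E))
    obtain ⟨r, hr1, hr2, hr3⟩ :=
      Nat.forall_exists_prime_gt_and_eq_mod x.isUnit (max n0 P0)
    have h2 := h r hr2 (lt_of_le_of_lt (le_max_right _ _) hr1) hr3
    have h3 := hn0 r ((le_max_left _ _).trans hr1.le)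
    have h4 := norm_nonneg ((r : ℂ) ^ (2 * θ * I : ℂ) * X - Y)
    linarith
  obtain ⟨KT, hKT0, hKT⟩ := bd_T θ hθ x
  obtain ⟨KA, hKA0, hKA⟩ := bd_A x
  obtain ⟨K2, hK2⟩ : ∃ K2 : ℝ, K2 = C + (‖X‖ + ‖Y‖) * (P0 : ℝ) ^ (3 / 2 : ℝ) := ⟨_, rfl⟩
  have hK20 : 0 ≤ K2 := by rw [hK2]; positivity
  obtain ⟨Z, hZ⟩ : ∃ Z : ℝ, Z = ∑' p : Nat.Primes, ((p : ℕ) : ℝ) ^ (-(3 / 2) : ℝ) := ⟨_, rfl⟩
  have hZs : Summable (fun p : Nat.Primes => ((p : ℕ) : ℝ) ^ (-(3 / 2) : ℝ)) :=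
    Nat.Primes.summable_rpow.mpr (by norm_num)
  have hZ0 : 0 ≤ Z := by rw [hZ]; exact tsum_nonneg fun p => by positivity
  -- the main inequality
  have main : ∀ α : ℝ, 0 < α → α ≤ 1 →
      (‖Y‖ - E) * ((M.totient : ℝ)⁻¹ * Real.log (1 / α) - KA) ≤ ‖X‖ * KT + K2 * Z ∨ ‖Y‖ ≤ E := by
    intro α hα hα1
    by_cases hYE : ‖Y‖ ≤ E
    · exact Or.inr hYE
    left
    push Not at hYE
    obtain ⟨A, hA⟩ : ∃ A : ℝ, A = ∑' p : Nat.Primes, io x (p : ℕ) * ((p : ℕ) : ℝ) ^ (-(1 + α)) :=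
      ⟨_, rfl⟩
    have hr0 : ∀ p : Nat.Primes, 0 ≤ ((p : ℕ) : ℝ) ^ (-(1 + α)) := fun p =>
      Real.rpow_nonneg (Nat.cast_nonneg _) _
    have hrs : Summable (fun p : Nat.Primes => ((p : ℕ) : ℝ) ^ (-(1 + α))) :=
      Nat.Primes.summable_rpow.mpr (by linarith)
    have hAs : Summable (fun p : Nat.Primes => io x (p : ℕ) * ((p : ℕ) : ℝ) ^ (-(1 + α))) :=
      Summable.of_nonneg_of_le (fun p => mul_nonneg (io_nonneg x _) (hr0 p))
        (fun p => mul_le_of_le_one_left (hr0 p) (io_le x _)) hrs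
    have hPA : PS (fun n => ((io x n : ℝ) : ℂ)) (1 + α) = ((A : ℝ) : ℂ) := by
      rw [hA, Complex.ofReal_tsum]
      unfold PS
      refine tsum_congr fun p => ?_
      show ((io x (p : ℕ) : ℝ) : ℂ) * ((p : ℕ) : ℂ) ^ (-(1 + ((α : ℝ) : ℂ))) = _
      rw [cast_rpow', ← Complex.ofReal_mul]
    have hAlow : (M.totient : ℝ)⁻¹ * Real.log (1 / α) - KA ≤ A := by
      have h1 := hKA α hα hα1
      rw [hPA] at h1
      have h2 : ((A : ℝ) : ℂ) + (M.totient : ℂ)⁻¹ * (Real.log α : ℂ) =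
          ((A + (M.totient : ℝ)⁻¹ * Real.log α : ℝ) : ℂ) := by
        push_cast
        rfl
      rw [h2, Complex.norm_real, Real.norm_eq_abs] at h1
      have h3 := (abs_le.1 h1).1
      rw [one_div, Real.log_inv, mul_neg]
      linarith
    have hY : ‖Y‖ * A ≤ ‖X‖ * KT + K2 * Z + E * A := by
      have hA0 : 0 ≤ A := by
        rw [hA]
        exact tsum_nonneg fun p => mul_nonneg (io_nonneg x _) (hr0 p)
      have h1 : X * PS (fun n => ((io x n : ℝ) : ℂ)) (1 - 2 * θ * I + α) - Y * ((A : ℝ) : ℂ) =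
          ∑' p : Nat.Primes, ((io x (p : ℕ) * ((p : ℕ) : ℝ) ^ (-(1 + α)) : ℝ) : ℂ) *
            (((p : ℕ) : ℂ) ^ (2 * θ * I : ℂ) * X - Y) := by
        rw [← hPA]
        unfold PS
        rw [← tsum_mul_left, ← tsum_mul_left, ← Summable.tsum_sub]
        · refine tsum_congr fun p => ?_
          have hp0 : ((p : ℕ) : ℂ) ≠ 0 := Nat.cast_ne_zero.2 p.2.ne_zero
          have h2 : ((p : ℕ) : ℂ) ^ (-(1 - 2 * θ * I + α : ℂ)) =
              ((p : ℕ) : ℂ) ^ (-(1 + ((α : ℝ) : ℂ))) * ((p : ℕ) : ℂ) ^ (2 * θ * I : ℂ) := by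
            rw [← cpow_add _ _ hp0]
            congr 1
            ring
          show X * (((io x (p : ℕ) : ℝ) : ℂ) * ((p : ℕ) : ℂ) ^ (-(1 - 2 * θ * I + α : ℂ))) -
            Y * (((io x (p : ℕ) : ℝ) : ℂ) * ((p : ℕ) : ℂ) ^ (-(1 + ((α : ℝ) : ℂ)))) = _
          rw [h2, cast_rpow', Complex.ofReal_mul]
          ring
        · exact ((prime_summable_one (fun n => ((io x n : ℝ) : ℂ)) (io_norm x) _
            (by simp [hα])).of_norm).mul_left X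
        · exact ((prime_summable_one (fun n => ((io x n : ℝ) : ℂ)) (io_norm x) _
            (by simp [hα])).of_norm).mul_left Y
      have h2 : ∀ p : Nat.Primes, ‖((io x (p : ℕ) * ((p : ℕ) : ℝ) ^ (-(1 + α)) : ℝ) : ℂ) *
          (((p : ℕ) : ℂ) ^ (2 * θ * I : ℂ) * X - Y)‖ ≤
          K2 * ((p : ℕ) : ℝ) ^ (-(3 / 2) : ℝ) +
            E * (io x (p : ℕ) * ((p : ℕ) : ℝ) ^ (-(1 + α))) := by
        intro p
        have hp0 : (0 : ℝ) < ((p : ℕ) : ℝ) := by exact_mod_cast p.2.pos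
        have hp1 : (1 : ℝ) ≤ ((p : ℕ) : ℝ) := by exact_mod_cast p.2.one_le
        have hnn : 0 ≤ io x (p : ℕ) * ((p : ℕ) : ℝ) ^ (-(1 + α)) :=
          mul_nonneg (io_nonneg x _) (hr0 p)
        rw [norm_mul, Complex.norm_real, Real.norm_eq_abs, abs_of_nonneg hnn]
        have h32 : 0 < ((p : ℕ) : ℝ) ^ (-(3 / 2) : ℝ) := Real.rpow_pos_of_pos hp0 _
        by_cases hio : ((p : ℕ) : ZMod M) = (x : ZMod M)
        · have hio1 : io x (p : ℕ) = 1 := if_pos hio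
          rw [hio1, one_mul]
          rcases Nat.lt_or_ge P0 (p : ℕ) with hpP | hpP
          · have h3 := h (p : ℕ) p.2 hpP hio
            have h4 : ((p : ℕ) : ℝ) ^ (-(1 + α)) * ((p : ℕ) : ℝ) ^ (-(1 / 2) : ℝ) ≤
                ((p : ℕ) : ℝ) ^ (-(3 / 2) : ℝ) := by
              rw [← Real.rpow_add hp0]
              exact Real.rpow_le_rpow_of_exponent_le hp1 (by linarith)
            calc ((p : ℕ) : ℝ) ^ (-(1 + α)) * ‖((p : ℕ) : ℂ) ^ (2 * θ * I : ℂ) * X - Y‖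
                ≤ ((p : ℕ) : ℝ) ^ (-(1 + α)) * (C * ((p : ℕ) : ℝ) ^ (-(1 / 2) : ℝ) + E) :=
                  mul_le_mul_of_nonneg_left h3 (hr0 p)
              _ = C * (((p : ℕ) : ℝ) ^ (-(1 + α)) * ((p : ℕ) : ℝ) ^ (-(1 / 2) : ℝ)) +
                  E * ((p : ℕ) : ℝ) ^ (-(1 + α)) := by ring
              _ ≤ C * ((p : ℕ) : ℝ) ^ (-(3 / 2) : ℝ) + E * ((p : ℕ) : ℝ) ^ (-(1 + α)) := by
                  have := mul_le_mul_of_nonneg_left h4 hC
                  linarith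
              _ ≤ _ := by
                  have h5 : C ≤ K2 := by
                    rw [hK2]
                    have : 0 ≤ (‖X‖ + ‖Y‖) * (P0 : ℝ) ^ (3 / 2 : ℝ) := by positivity
                    linarith
                  have := mul_le_mul_of_nonneg_right h5 h32.le
                  linarith
          · have h3 : ‖((p : ℕ) : ℂ) ^ (2 * θ * I : ℂ) * X - Y‖ ≤ ‖X‖ + ‖Y‖ := by
              refine (norm_sub_le _ _).trans ?_
              rw [norm_mul, norm_tw _ p.2.pos, one_mul]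
            have h4 : ((p : ℕ) : ℝ) ^ (-(1 + α)) ≤ 1 :=
              Real.rpow_le_one_of_one_le_of_nonpos hp1 (by linarith)
            have h5 : 1 ≤ (P0 : ℝ) ^ (3 / 2 : ℝ) * ((p : ℕ) : ℝ) ^ (-(3 / 2) : ℝ) := by
              have h6 : ((p : ℕ) : ℝ) ^ (3 / 2 : ℝ) ≤ (P0 : ℝ) ^ (3 / 2 : ℝ) :=
                Real.rpow_le_rpow hp0.le (by exact_mod_cast hpP) (by norm_num)
              have h7 : ((p : ℕ) : ℝ) ^ (3 / 2 : ℝ) * ((p : ℕ) : ℝ) ^ (-(3 / 2) : ℝ) = 1 := by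
                rw [← Real.rpow_add hp0]
                norm_num
              rw [← h7]
              exact mul_le_mul_of_nonneg_right h6 h32.le
            have h8 : 0 ≤ E * ((p : ℕ) : ℝ) ^ (-(1 + α)) := mul_nonneg hE (hr0 p)
            calc ((p : ℕ) : ℝ) ^ (-(1 + α)) * ‖((p : ℕ) : ℂ) ^ (2 * θ * I : ℂ) * X - Y‖
                ≤ 1 * (‖X‖ + ‖Y‖) := mul_le_mul h4 h3 (norm_nonneg _) zero_le_one
              _ = (‖X‖ + ‖Y‖) * 1 := by ring
              _ ≤ (‖X‖ + ‖Y‖) * ((P0 : ℝ) ^ (3 / 2 : ℝ) * ((p : ℕ) : ℝ) ^ (-(3 / 2) : ℝ)) :=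
                  mul_le_mul_of_nonneg_left h5 (by positivity)
              _ = ((‖X‖ + ‖Y‖) * (P0 : ℝ) ^ (3 / 2 : ℝ)) * ((p : ℕ) : ℝ) ^ (-(3 / 2) : ℝ) := by
                  ring
              _ ≤ K2 * ((p : ℕ) : ℝ) ^ (-(3 / 2) : ℝ) := by
                  refine mul_le_mul_of_nonneg_right ?_ h32.le
                  rw [hK2]
                  linarith
              _ ≤ _ := by linarith
        · have hio1 : io x (p : ℕ) = 0 := if_neg hio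
          rw [hio1, zero_mul, zero_mul, mul_zero, add_zero]
          positivity
      have h3 : Summable (fun p : Nat.Primes => K2 * ((p : ℕ) : ℝ) ^ (-(3 / 2) : ℝ) +
          E * (io x (p : ℕ) * ((p : ℕ) : ℝ) ^ (-(1 + α)))) :=
        (hZs.mul_left K2).add (hAs.mul_left E)
      have h4 : ‖X * PS (fun n => ((io x n : ℝ) : ℂ)) (1 - 2 * θ * I + α) - Y * ((A : ℝ) : ℂ)‖ ≤
          K2 * Z + E * A := by
        rw [h1]
        refine (tsum_of_norm_bounded h3.hasSum h2).trans (le_of_eq ?_)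
        rw [(hZs.mul_left K2).tsum_add (hAs.mul_left E), tsum_mul_left, tsum_mul_left, ← hZ, ← hA]
      have h5 : ‖Y * ((A : ℝ) : ℂ)‖ = ‖Y‖ * A := by
        rw [norm_mul, Complex.norm_real, Real.norm_eq_abs, abs_of_nonneg hA0]
      have h6 : ‖X * PS (fun n => ((io x n : ℝ) : ℂ)) (1 - 2 * θ * I + α)‖ ≤ ‖X‖ * KT := by
        rw [norm_mul]
        exact mul_le_mul_of_nonneg_left (hKT α hα hα1) (norm_nonneg _)
      have h7 := norm_sub_norm_le (Y * ((A : ℝ) : ℂ))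
        (X * PS (fun n => ((io x n : ℝ) : ℂ)) (1 - 2 * θ * I + α))
      rw [norm_sub_rev] at h7
      linarith
    have h8 : (‖Y‖ - E) * ((M.totient : ℝ)⁻¹ * Real.log (1 / α) - KA) ≤ (‖Y‖ - E) * A :=
      mul_le_mul_of_nonneg_left hAlow (by linarith)
    linarith
  by_contra hcon
  push Not at hcon
  obtain ⟨K3, hK3⟩ : ∃ K3 : ℝ, K3 = ‖X‖ * KT + K2 * Z := ⟨_, rfl⟩
  have hK30 : 0 ≤ K3 := by rw [hK3]; positivity
  obtain ⟨t, ht⟩ : ∃ t : ℝ, t = (M.totient : ℝ) * (KA + K3 / (‖Y‖ - E) + 1) := ⟨_, rfl⟩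
  have hd : 0 < ‖Y‖ - E := by linarith
  have ht0 : 0 ≤ t := by rw [ht]; positivity
  rcases main (Real.exp (-t)) (Real.exp_pos _) (Real.exp_le_one_iff.2 (by linarith)) with h1 | h1
  · rw [← hK3, one_div, ← Real.exp_neg, neg_neg, Real.log_exp] at h1
    have h2 : (M.totient : ℝ)⁻¹ * t - KA = K3 / (‖Y‖ - E) + 1 := by
      rw [ht]
      field_simp
      ring
    rw [h2, mul_add, mul_div_cancel₀ _ hd.ne'] at h1
    linarith
  · linarith

end Pool.Agent.H78.PB
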