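import Mathlib
import Pool.Agent.H78.PB.Defs
import Pool.Agent.H78.PB.CHR
import Pool.Agent.H78.PB.RZE
import Pool.Agent.H11.PC.EULX

/-!
# EXB: the exact Euler factors in the second case (`θ = 0`)

Write `f_i = clv c χ_i` (`f_i x = (χ_i x)⁻¹` on the units, `clv_apply`; `f1 ≠ f2` by `clv_inj`), `cu c cf x = c1 f1 x + c2 f2 x`
(only `χ1, χ2` contribute), so `cu x + Du x = f1 x + f2 x` (`c1 + c2 = 1`).  Let `r ∤ P` be a prime with class `y`, `k ≥ 1`.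
`r_mix` for all units `x`: `(1/r)^k (c2 f1(x) f1(y)^k + c1 f2(x) f2(y)^k) = c1 f2(x) T1 + c2 f1(x) T2` with
`T_i = Fac b 0 χ_i r k` (the factor for `χ1` is `f1 x + f2 x - f1 x = f2 x`).  Comparing the coefficients of `f1(x)`
(`four_unique` modulo `N c`, `f1 ≠ f2`, `c2 ≠ 0`): `T2 = (f1(y)/r)^k`.  So `Lam b r k X = (ω/r)^k`, `X = χ2(r)/r`
(`r^(-(1-0I)) = 1/r`), `ω = χ2(r) f1(y)` (`T2 = (χ2 r)⁻¹^k Lam b r k X`, `χ2(r) f2(y) = 1`), `‖ω‖ = 1`.
`local_exact V.pd r hr ω X`: `b(r^k) X^k = (1/r)^k ∑ ω^i`, times `(r f2(y))^k`: `b(r^k) = ∑ f1(y)^i f2(y)^(k-i)` (as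
`ω^i f2^k = (χ2 f1)^i f2^k = f1^i f2^(k-i)`, `i ≤ k`).  `k = 0`: `b 1 = 1`.  `ψ1 = f1`, `ψ2 = f2`.
-/

set_option autoImplicit false

namespace Pool.Agent.H78.PB

open Complex Filter Topology Pool.Agent.H11.PC Pool.Agent.H11.PB

theorem exact_B {b : ℕ → ℂ} {N c P : ℕ} [NeZero N] {cf : DirichletCharacter ℂ N → ℂ}
    {D : ZMod c → ℂ} (V : VD b 0 N c P cf D) (χ1 χ2 : DirichletCharacter ℂ N) (c1 c2 : ℂ)
    (hχ : χ1 ≠ χ2) (h1 : c1 ≠ 0) (h2 : c2 ≠ 0) (h12 : c1 + c2 = 1) (e1 : cf χ1 = c1)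
    (e2 : cf χ2 = c2) (h0 : ∀ χ, χ ≠ χ1 → χ ≠ χ2 → cf χ = 0)
    (hD : ∀ x : (ZMod (N * c))ˣ, Du N D x =
        c2 * clv c χ1 (x : ZMod (N * c)) + c1 * clv c χ2 (x : ZMod (N * c))) :
    ∀ r : ℕ, r.Prime → ¬ r ∣ P → ∀ k : ℕ, b (r ^ k) = ∑ i ∈ Finset.range (k + 1),
      clv c χ1 (r : ZMod (N * c)) ^ i * clv c χ2 (r : ZMod (N * c)) ^ (k - i) := by
  have hNc : N * c ≠ 0 := fun h => V.P0 (Nat.eq_zero_of_zero_dvd (h ▸ V.dvd))
  have hNZ : NeZero (N * c) := ⟨hNc⟩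
  intro r hr hrP k
  have hcop : Nat.Coprime r (N * c) := by
    rw [Nat.Prime.coprime_iff_not_dvd hr]
    exact fun h => hrP (h.trans V.dvd)
  have hr0 : (r : ℂ) ≠ 0 := Nat.cast_ne_zero.mpr hr.ne_zero
  obtain ⟨y, hy⟩ : ∃ y : (ZMod (N * c))ˣ, (y : ZMod (N * c)) = (r : ZMod (N * c)) :=
    ⟨ZMod.unitOfCoprime r hcop, ZMod.coe_unitOfCoprime r hcop⟩
  have hcast : ZMod.castHom (dvd_mul_right N c) (ZMod N) (y : ZMod (N * c)) = (r : ZMod N) := by
    rw [hy, map_natCast]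
  have hf : clv c χ1 ≠ clv c χ2 := fun h => hχ (clv_inj c h)
  have hsum2 : ∀ g : DirichletCharacter ℂ N → ℂ, (∀ χ, χ ≠ χ1 → χ ≠ χ2 → g χ = 0) →
      ∑ χ : DirichletCharacter ℂ N, g χ = g χ1 + g χ2 := fun g hg =>
    Finset.sum_eq_add χ1 χ2 hχ (fun χ _ h => hg χ h.1 h.2) (fun h => absurd (Finset.mem_univ _) h)
      (fun h => absurd (Finset.mem_univ _) h)
  have hcu : ∀ x : (ZMod (N * c))ˣ, cu c cf x =
      c1 * clv c χ1 (x : ZMod (N * c)) + c2 * clv c χ2 (x : ZMod (N * c)) := by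
    intro x
    unfold cu
    rw [hsum2 _ fun χ h h' => by rw [h0 χ h h', zero_mul], e1, e2, clv_apply, clv_apply]
  have hT : ∀ k : ℕ, 1 ≤ k → Fac b 0 χ2 r k =
      (1 / (r : ℂ)) ^ k * clv c χ1 (y : ZMod (N * c)) ^ k := by
    intro k hk
    have h3 : ∀ x : (ZMod (N * c))ˣ, (1 / (r : ℂ)) ^ k *
        (c2 * (clv c χ1 (x : ZMod (N * c)) * clv c χ1 (y : ZMod (N * c)) ^ k) +
          c1 * (clv c χ2 (x : ZMod (N * c)) * clv c χ2 (y : ZMod (N * c)) ^ k)) =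
        c1 * clv c χ2 (x : ZMod (N * c)) * Fac b 0 χ1 r k +
          c2 * clv c χ1 (x : ZMod (N * c)) * Fac b 0 χ2 r k := by
      intro x
      have h4 := r_mix V r hr hrP k hk x y hy
      rw [hsum2 _ fun χ h h' => by rw [h0 χ h h', zero_mul, zero_mul], e1, e2, hD, hD, hcu,
        ← clv_apply, ← clv_apply] at h4
      simp only [Units.val_mul, Units.val_pow_eq_pow_val, map_mul, map_pow] at h4
      rw [h4]
      linear_combination (c1 * clv c χ2 (x : ZMod (N * c)) * Fac b 0 χ1 r k +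
        c2 * clv c χ1 (x : ZMod (N * c)) * Fac b 0 χ2 r k + c1 * clv c χ1 (x : ZMod (N * c)) * Fac b 0 χ1 r k +
        c2 * clv c χ2 (x : ZMod (N * c)) * Fac b 0 χ2 r k) * h12
    have h5 := four_unique (N * c)
      (fun χ => if χ = clv c χ1 then (1 / (r : ℂ)) ^ k * (c2 * clv c χ1 (y : ZMod (N * c)) ^ k) else
        if χ = clv c χ2 then (1 / (r : ℂ)) ^ k * (c1 * clv c χ2 (y : ZMod (N * c)) ^ k) else 0)
      (fun χ => if χ = clv c χ1 then c2 * Fac b 0 χ2 r k else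
        if χ = clv c χ2 then c1 * Fac b 0 χ1 r k else 0) (fun x => by
          rw [Finset.sum_eq_add (clv c χ1) (clv c χ2) hf
            (fun χ _ h => by rw [if_neg h.1, if_neg h.2, zero_mul])
            (fun h => absurd (Finset.mem_univ _) h) (fun h => absurd (Finset.mem_univ _) h),
            Finset.sum_eq_add (clv c χ1) (clv c χ2) hf
            (fun χ _ h => by rw [if_neg h.1, if_neg h.2, zero_mul])
            (fun h => absurd (Finset.mem_univ _) h) (fun h => absurd (Finset.mem_univ _) h),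
            if_pos rfl, if_pos rfl, if_neg hf.symm, if_neg hf.symm, if_pos rfl, if_pos rfl]
          linear_combination h3 x)
    have h6 := congrFun h5 (clv c χ1)
    simp only [if_true] at h6
    exact (mul_left_cancel₀ h2 (by linear_combination h6)).symm
  have hfy : clv c χ2 (y : ZMod (N * c)) = (χ2 (r : ZMod N))⁻¹ := by
    rw [clv_apply, hcast]
  have hn1 : ‖clv c χ1 (y : ZMod (N * c))‖ = 1 := DirichletCharacter.unit_norm_eq_one _ y
  have hn2 : ‖clv c χ2 (y : ZMod (N * c))‖ = 1 := DirichletCharacter.unit_norm_eq_one _ y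
  have hn3 : ‖χ2 (r : ZMod N)‖ = 1 := by
    rw [hfy, norm_inv, inv_eq_one] at hn2
    exact hn2
  have hne : χ2 (r : ZMod N) ≠ 0 := by
    rw [← norm_ne_zero_iff, hn3]
    exact one_ne_zero
  have hX : χ2 (r : ZMod N) * (r : ℂ) ^ (-(1 - ((0 : ℝ) : ℂ) * I) : ℂ) = χ2 (r : ZMod N) * (1 / r) := by
    rw [Complex.ofReal_zero, zero_mul, sub_zero, Complex.cpow_neg_one, one_div]
  have hexact := local_exact V.pd r hr (χ2 (r : ZMod N) * clv c χ1 (y : ZMod (N * c)))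
    (χ2 (r : ZMod N) * (1 / r)) (by rw [norm_mul, hn3, hn1, one_mul]) (by
      rw [norm_mul, hn3, one_mul, norm_div, norm_one, Complex.norm_natCast, one_div,
        ← Real.rpow_neg_one]
      exact Real.rpow_le_rpow_of_exponent_le (by exact_mod_cast hr.one_lt.le) (by norm_num))
    (fun k hk => by
      have h7 := hT k hk
      unfold Fac at h7
      rw [hX] at h7
      have h8 : χ2 (r : ZMod N) ^ k * ((χ2 (r : ZMod N))⁻¹ ^ k * Lam b r k (χ2 (r : ZMod N) * (1 / r))) =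
          Lam b r k (χ2 (r : ZMod N) * (1 / r)) := by
        rw [← mul_assoc, ← mul_pow, mul_inv_cancel₀ hne, one_pow, one_mul]
      rw [← h8, h7, div_pow, one_pow, div_pow, mul_pow]
      ring) k
  rw [← hy, hfy]
  have h9 : b (r ^ k) * χ2 (r : ZMod N) ^ k =
      ∑ i ∈ Finset.range (k + 1), (χ2 (r : ZMod N) * clv c χ1 (y : ZMod (N * c))) ^ i := by
    have h10 : (1 / (r : ℂ)) ^ k ≠ 0 := pow_ne_zero _ (one_div_ne_zero hr0)
    refine mul_left_cancel₀ h10 ?_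
    rw [← hexact, mul_pow]
    ring
  have h11 : χ2 (r : ZMod N) ^ k ≠ 0 := pow_ne_zero _ hne
  refine mul_right_cancel₀ h11 ?_
  rw [h9, Finset.sum_mul]
  refine Finset.sum_congr rfl fun i hi => ?_
  have hik : i ≤ k := Nat.lt_succ_iff.1 (Finset.mem_range.1 hi)
  have h12 : χ2 (r : ZMod N) ^ k = χ2 (r : ZMod N) ^ i * χ2 (r : ZMod N) ^ (k - i) := by
    rw [← pow_add, Nat.add_sub_cancel' hik]
  rw [h12, mul_pow, inv_pow]
  have h13 : χ2 (r : ZMod N) ^ (k - i) ≠ 0 := pow_ne_zero _ hne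
  field_simp

end Pool.Agent.H78.PB
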